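import Pool.Agent.KS6_80.CC.Wt

set_option autoImplicit false

/-! # Roots of weighted homogeneous polynomials which are positive on a cone -/

namespace Pool.Agent.KS6_80.CC

open MvPolynomial MeasureTheory Set Filter Topology Metric
open Pool.Agent.T6.H16.RA (rv cx Reg rv_cont)
open Pool.Agent.T6.H26.DC (dl rv_dl dl_dl NN NN_dl NN_cont NN_pos DD DD_pos kk kk_pos kk_even kk_mul)
open Pool.Agent.H628R4.TP (IsBFunction)
open scoped ENNReal

variable {n : ℕ} {f h : MvPolynomial (Fin n) ℝ} {U : Set (Fin n → ℝ)} {d e : ℕ} {w : Fin n → ℕ}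

/-- `f ^ s h` is integrable on `U` near `x` for all `s > s0` -/
def LocI (f h : MvPolynomial (Fin n) ℝ) (U : Set (Fin n → ℝ)) (s0 : ℝ) (x : Fin n → ℝ) : Prop :=
  ∀ s : ℝ, s0 < s → ∃ V ∈ 𝓝 x, IntegrableOn (fun x => rv f x ^ s * rv h x) (U ∩ V)

theorem locI_in (hR : Reg f U) (s0 : ℝ) {x : Fin n → ℝ} (hx : x ∈ U) : LocI f h U s0 x := by
  intro s _
  obtain ⟨r, hr, hrU⟩ := nhds_basis_closedBall.mem_iff.1 (hR.op.mem_nhds hx)
  refine ⟨closedBall x r, closedBall_mem_nhds x hr, ?_⟩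
  rw [inter_eq_right.2 hrU]
  refine ContinuousOn.integrableOn_compact (isCompact_closedBall x r) ?_
  intro y hy
  exact ((((rv_cont f).continuousAt).rpow_const (Or.inl (hR.pos y (hrU hy)).ne')).mul
    (rv_cont h).continuousAt).continuousWithinAt

theorem locI_out {s0 : ℝ} {x : Fin n → ℝ} (hx : x ∉ closure U) : LocI f h U s0 x := by
  intro s _
  refine ⟨(closure U)ᶜ, isClosed_closure.isOpen_compl.mem_nhds hx, ?_⟩
  have : U ∩ (closure U)ᶜ = ∅ := by
    ext y
    simp only [mem_inter_iff, mem_compl_iff, mem_empty_iff_false, iff_false, not_and, not_not]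
    exact fun hy => subset_closure hy
  rw [this]
  exact integrableOn_empty

theorem int_shell (hw : ∀ i, 0 < w i) (hR : Reg f U) (hpos : ∀ x ∈ U, 0 ≤ rv h x) {s0 s : ℝ}
    (hs : s0 < s) (hloc : ∀ x ∈ closure U, x ∉ U → x ≠ 0 → LocI f h U s0 x) :
    Lam f h U s (shell w) < ∞ := by
  have hK : IsCompact (QB w 1 \ {x | NN w x < (1 / 2 : ℝ) ^ DD w}) := by
    have h1 : IsCompact (QB w 1) := by
      refine Metric.isCompact_of_isClosed_isBounded (QB_closed w 1) ?_
      exact (isBounded_iff_forall_norm_le).2 ⟨1, fun x hx => norm_le_of_QB hw one_pos le_rfl hx⟩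
    exact h1.diff (isOpen_lt (NN_cont w) continuous_const)
  have h1 : IntegrableOn (fun x => rv f x ^ s * rv h x)
      (U ∩ (QB w 1 \ {x | NN w x < (1 / 2 : ℝ) ^ DD w})) := by
    refine hK.induction_on
      (p := fun S => IntegrableOn (fun x => rv f x ^ s * rv h x) (U ∩ S)) ?_ ?_ ?_ ?_
    · rw [inter_empty]
      exact integrableOn_empty
    · intro S T hST hT
      exact hT.mono_set (inter_subset_inter_right U hST)
    · intro S T hS hT
      rw [inter_union_distrib_left]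
      exact hS.union hT
    · intro x hx
      have hx0 : x ≠ 0 := by
        rintro rfl
        apply hx.2
        show NN w 0 < _
        rw [NN_zero hw]
        positivity
      have hl : LocI f h U s0 x := by
        by_cases hxU : x ∈ U
        · exact locI_in hR s0 hxU
        · by_cases hxc : x ∈ closure U
          · exact hloc x hxc hxU hx0
          · exact locI_out hxc
      obtain ⟨V, hV, hi⟩ := hl s hs
      exact ⟨V, mem_nhdsWithin_of_mem_nhds hV, hi⟩
  refine (int_iff hR hpos (shell_meas w) s).1 (h1.mono_set (inter_subset_inter_right U ?_))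
  rintro x ⟨hx1, hx2⟩
  refine ⟨hx1, fun h => hx2 ?_⟩
  have h' : NN w x < (1 / 2 : ℝ) ^ DD w := h
  show NN w x ≤ (1 / 2 : ℝ) ^ DD w
  exact h'.le

/-- convergence and divergence -/
theorem conv_div (hw : ∀ i, 0 < w i) (hR : Reg f U) (hU : WC w U)
    (hf : f.IsWeightedHomogeneous w d) (hh : h.IsWeightedHomogeneous w e) (hd : 0 < d)
    (hpos : ∀ x ∈ U, 0 ≤ rv h x) (hne : ∃ x ∈ U, x ≠ 0 ∧ 0 < rv h x)
    (hloc : ∀ x ∈ closure U, x ∉ U → x ≠ 0 →
      LocI f h U (-(((∑ i, w i : ℕ) : ℝ) + e) / d) x) :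
    (∀ s : ℝ, -(((∑ i, w i : ℕ) : ℝ) + e) / d < s →
      IntegrableOn (fun x => rv f x ^ s * rv h x) (U ∩ closedBall 0 1)) ∧
    ∀ R : ℝ, ∃ᶠ t in 𝓝[>] (-(((∑ i, w i : ℕ) : ℝ) + e) / d),
      R < ∫ x in U ∩ closedBall 0 (1 / 2), rv f x ^ t * rv h x := by
  have hn : 0 < n := by
    obtain ⟨x, -, hx0, -⟩ := hne
    rcases Nat.eq_zero_or_pos n with h | h
    · subst h
      exact absurd (Subsingleton.elim x 0) hx0
    · exact h
  have hnR : (0 : ℝ) < n := by exact_mod_cast hn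
  have hdR : (0 : ℝ) < d := by exact_mod_cast hd
  set s0 : ℝ := -(((∑ i, w i : ℕ) : ℝ) + e) / d with hs0
  have hfin : ∀ s : ℝ, s0 < s → ∀ ρ : ℝ, 0 < ρ → Lam f h U s (QB w ρ) < ∞ := by
    intro s hs ρ hρ
    refine Lam_QB hn hw hR hU hf hh ?_ hρ (int_shell hw hR hpos hs hloc)
    rw [hs0] at hs
    have h1 := (div_lt_iff₀ hdR).1 hs
    nlinarith
  refine ⟨fun s hs => ?_, fun R => ?_⟩
  · exact ((int_iff hR hpos (QB_closed w n).measurableSet s).2 (hfin s hs n hnR)).mono_set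
      (inter_subset_inter_right U (ball_sub_QB hn hw))
  · refine Filter.Eventually.frequently ?_
    filter_upwards [Lam_div hw hR hU hf hh hd hpos hne (ρ := 1 / 2) (by norm_num) (max R 0),
      self_mem_nhdsWithin] with t ht hts
    have hsub : U ∩ QB w (1 / 2) ⊆ U ∩ closedBall 0 (1 / 2) :=
      inter_subset_inter_right U fun x hx => mem_closedBall_zero_iff.2
        (norm_le_of_QB hw (by norm_num) (by norm_num) hx)
    have hI : IntegrableOn (fun x => rv f x ^ t * rv h x) (U ∩ closedBall 0 (1 / 2)) := by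
      refine ((int_iff hR hpos (QB_closed w n).measurableSet t).2 (hfin t hts n hnR)).mono_set
        (inter_subset_inter_right U ((closedBall_subset_closedBall (by norm_num)).trans
          (ball_sub_QB hn hw)))
    have h1 : (∫ x in U ∩ QB w (1 / 2), rv f x ^ t * rv h x) =
        (Lam f h U t (QB w (1 / 2))).toReal := by
      rw [integral_eq_lintegral_of_nonneg_ae, Lam]
      · filter_upwards [ae_restrict_mem (hR.op.measurableSet.inter
          (QB_closed w (1 / 2)).measurableSet)] with x hx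
        exact mul_nonneg (Real.rpow_nonneg (hR.pos x hx.1).le _) (hpos x hx.1)
      · exact (((rv_cont f).measurable.pow_const t).mul
          (rv_cont h).measurable).aestronglyMeasurable
    have h2 := (hfin t hts (1 / 2) (by norm_num)).ne
    have h3 : max R 0 < (Lam f h U t (QB w (1 / 2))).toReal := by
      rw [← ENNReal.ofReal_lt_iff_lt_toReal (le_max_right _ _) h2]
      exact ht
    rw [← h1] at h3
    refine (le_max_left R 0).trans_lt (h3.trans_le ?_)
    refine setIntegral_mono_set hI ?_ (Eventually.of_forall hsub)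
    filter_upwards [ae_restrict_mem (hR.op.measurableSet.inter measurableSet_closedBall)] with x hx
    exact mul_nonneg (Real.rpow_nonneg (hR.pos x hx.1).le _) (hpos x hx.1)

theorem cx_ne {x : Fin n → ℝ} (h : 0 < rv f x) : cx f ≠ 0 := by
  intro h1
  have h2 : f = 0 := map_injective (algebraMap ℝ ℂ) (algebraMap ℝ ℂ).injective (by
    rw [map_zero]
    exact h1)
  rw [h2] at h
  simp [rv] at h

/-- **A root of `b` in `-W/d + ℤ`**, from a weight `h` of degree `d k`: some `-W/d - k + j`, `j ∈ ℕ`. -/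
theorem root_weight {k : ℕ} (hw : ∀ i, 0 < w i) (hR : Reg f U) (hU : WC w U)
    (hf : f.IsWeightedHomogeneous w d) (hh : h.IsWeightedHomogeneous w (d * k)) (hd : 0 < d)
    (hpos : ∀ x ∈ U, 0 ≤ rv h x) (hne : ∃ x ∈ U, x ≠ 0 ∧ 0 < rv h x)
    (hloc : ∀ x ∈ closure U, x ∉ U → x ≠ 0 →
      LocI f h U (-((∑ i, w i : ℕ) : ℝ) / d - k) x)
    {b : Polynomial ℂ} (hb : IsBFunction (cx f) b) :
    ∃ l : ℤ, b.eval (-((∑ i, w i : ℕ) : ℂ) / d + (l : ℂ)) = 0 := by
  have hdR : (0 : ℝ) < d := by exact_mod_cast hd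
  have e1 : -(((∑ i, w i : ℕ) : ℝ) + (d * k : ℕ)) / d = -((∑ i, w i : ℕ) : ℝ) / d - k := by
    rw [Nat.cast_mul]
    field_simp
    ring
  rw [← e1] at hloc
  obtain ⟨h1, h2⟩ := conv_div hw hR hU hf hh hd hpos hne hloc
  obtain ⟨x, hx, -⟩ := hne
  obtain ⟨j, hj⟩ := Pool.Agent.T6.H26.RW.rootW hR (cx_ne (hR.pos x hx)) hb hpos (p := 0) (ρ := 1)
    one_pos h1 h2
  refine ⟨(j : ℤ) - k, ?_⟩
  rw [e1] at hj
  rw [← hj]
  congr 1
  push_cast
  ring

/-- **The root `-W/d`.** -/
theorem root_exact (hw : ∀ i, 0 < w i) (hR : Reg f U) (hU : WC w U)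
    (hf : f.IsWeightedHomogeneous w d) (hd : 0 < d) (hne : ∃ x ∈ U, x ≠ 0)
    (hloc : ∀ x ∈ closure U, x ∉ U → x ≠ 0 →
      Pool.Agent.KS6_80.RC.LocInt f U (-((∑ i, w i : ℕ) : ℝ) / d) x)
    {b : Polynomial ℂ} (hb : IsBFunction (cx f) b) :
    b.eval (-((∑ i, w i : ℕ) : ℂ) / d) = 0 := by
  have hh : (1 : MvPolynomial (Fin n) ℝ).IsWeightedHomogeneous w 0 := isWeightedHomogeneous_one ℝ w
  have h1v : ∀ x : Fin n → ℝ, rv (1 : MvPolynomial (Fin n) ℝ) x = 1 := fun x => by
    unfold rv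
    rw [map_one]
  have hdR : (0 : ℝ) < d := by exact_mod_cast hd
  obtain ⟨h1, h2⟩ := conv_div hw hR hU hf hh hd (fun x _ => by rw [h1v]; exact zero_le_one)
    (by
      obtain ⟨x, hx, hx0⟩ := hne
      exact ⟨x, hx, hx0, by rw [h1v]; exact one_pos⟩)
    (fun x hx hxU hx0 s hs => by
      obtain ⟨V, hV, hi⟩ := hloc x hx hxU hx0 s (by
        simpa using hs)
      refine ⟨V, hV, ?_⟩
      simp only [h1v, mul_one]
      exact hi)
  obtain ⟨x, hx, -⟩ := hne
  simp only [h1v, mul_one, Nat.cast_zero, add_zero] at h1 h2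
  have h3 := Pool.Agent.T6.H16.RA.root hR (cx_ne (hR.pos x hx)) hb (p := 0) (ρ := 1) one_pos h1 h2
  push_cast at h3 ⊢
  exact h3

end Pool.Agent.KS6_80.CC
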