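import Pool.Agent.KS6_80.CC.Defs
import Pool.Agent.KS6_80.CC.Root
import Pool.Graph.R_pool_sql_team_seeded_47a924f7.T6.H26.DC.D
import Pool.Graph.R_pool_sql_team_seeded_ab47071d.TH26.Cub.Weyl
import Pool.Graph.R_seed8.Y230.TL.A
import Pool.Graph.R_seed8.Y230.TL.U
import Pool.Graph.R_seed8.Y64.TL.ExpB
import Pool.Graph.R_seed8.Y475.TL.L
import Pool.Graph.R_seed8.Y448.TL.J

set_option autoImplicit false
set_option linter.unusedSectionVars false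
set_option linter.unusedVariables false

/-! # Cones over real hypersurfaces with a chamber: the class -/

namespace Pool.Agent.KS6_80.CC

open MvPolynomial MeasureTheory Set Filter Topology Metric
open Pool.Agent.W574.SM Pool.Agent.W574.RO Pool.Agent.Y229 Pool.Agent.W574.LM
open Pool.Agent.W574.HS Pool.Agent.W574.CN
open Pool.Agent.TH192.DT Pool.Agent.R852.TL Pool.Agent.R779.HK Pool.Agent.T6.H26.HankMix
open Pool.Agent.Y230.TL (StJ StU StL)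
open Pool.Agent.H628R4.TP (IsBFunction IsLocalBFunction)
open Pool.Agent.T6.H16.RA (cx rv Reg isBFunction_C_mul)
open Pool.Agent.T6.H16.RW (global_of_localW)
open Pool.Agent.T6.H26 Pool.Agent.T6.H26.DC

/-- the root up to an integer -/
theorem root_hasChamber {n : ℕ} {w : Fin n → ℕ} {d : ℕ} (hd : 0 < d) {f : MvPolynomial (Fin n) ℂ}
    (hc : HasChamber w d f) {b : Polynomial ℂ} (hb : IsBFunction f b) :
    ∃ l : ℤ, b.eval (-((∑ i, w i : ℕ) : ℂ) / d + (l : ℂ)) = 0 := by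
  obtain ⟨φ, c, w', d', k, g, h, U, hc0, hw', hd', hr, hg, hh, hU, he⟩ := hc
  have h1 := Pool.Agent.TH26.Cub.isB_of_equiv φ f b hb
  rw [he] at h1
  have h2 := isBFunction_C_mul h1 (inv_ne_zero hc0)
  rw [← mul_assoc, ← C_mul, inv_mul_cancel₀ hc0, C_1, one_mul] at h2
  obtain ⟨l, hl⟩ := root_weight (k := k) (b := b) hw' (⟨hU.op, hU.pos, hU.bd⟩ : Reg g U) hU.cone hg hh hd'
    hU.hpos hU.hne hU.mild h2
  refine ⟨l, ?_⟩
  have hdC : (d : ℂ) ≠ 0 := Nat.cast_ne_zero.2 hd.ne'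
  have hdC' : (d' : ℂ) ≠ 0 := Nat.cast_ne_zero.2 hd'.ne'
  have e : -((∑ i, w i : ℕ) : ℂ) / d = -((∑ i, w' i : ℕ) : ℂ) / d' := by
    rw [div_eq_div_iff hdC hdC']
    have h3 : ((∑ i, w' i : ℕ) : ℂ) * d = ((∑ i, w i : ℕ) : ℂ) * d' := by exact_mod_cast hr
    linear_combination h3
  rw [e]
  exact hl

theorem ne_zero_of_hasChamber {n : ℕ} {w : Fin n → ℕ} {d : ℕ} {f : MvPolynomial (Fin n) ℂ}
    (hc : HasChamber w d f) : f ≠ 0 := by
  obtain ⟨φ, c, w', d', k, g, h, U, hc0, hw', hd', hr, hg, hh, hU, he⟩ := hc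
  rintro rfl
  rw [map_zero] at he
  obtain ⟨x, hx, -⟩ := hU.hne
  have h1 : map (algebraMap ℝ ℂ) g = 0 := by
    rcases mul_eq_zero.1 he.symm with h | h
    · exact absurd (C_eq_zero.1 h) hc0
    · exact h
  exact cx_ne (show 0 < rv g x from hU.pos x hx) h1

/-- the forced root -/
theorem sf_root {n : ℕ} {w : Fin n → ℕ} (hw : ∀ i, 0 < w i) {d : ℕ} {f : MvPolynomial (Fin n) ℂ}
    (hf : f.IsWeightedHomogeneous w d) (hf0 : f ≠ 0) (s₀ : ℂ)
    (hroot : ∀ b : Polynomial ℂ, IsBFunction f b → ∃ l : ℤ, b.eval (s₀ + (l : ℂ)) = 0) :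
    ∃ l : ℤ, SF (fun _ : Fin 1 => f) 0 (s₀ - (l : ℂ)) := by
  classical
  obtain ⟨b1, hb1, hfe⟩ := exists_fe (fun _ : Fin 1 => f) ⟨0, hf0⟩
  obtain ⟨b0, hb0⟩ := Pool.Agent.W206.CU.exists_isBernsteinSatoOf (isB_of_single _ b1 hfe) hb1
  obtain ⟨l, hl⟩ := hroot b0 hb0.2.1
  refine ⟨-l, ?_⟩
  refine sf_of_local _ 0 _ (fun H b hb hH => ?_) ⟨b1, hb1, hfe⟩
  rw [MvPolynomial.eval_zero] at hH
  have h1 := localB_of_single _ H b hH hb
  have h2 := global_of_localW (w := fun i => (w i : ℤ)) (fun i => by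
    show (0 : ℤ) < (w i : ℤ)
    exact_mod_cast hw i) _ hf0 _ (wh_int hf) b h1
  obtain ⟨q, rfl⟩ := Pool.Agent.W206.CU.isBernsteinSatoOf_dvd hb0 h2
  rw [Polynomial.eval_mul, Int.cast_neg, sub_neg_eq_add, hl, zero_mul]

/-- **Poles and forced roots of a cone, if `-W/d` is a root.** -/
theorem cone_gen (K : Fam → RatFunc ℂ → Prop)
    (hK : ∀ A Z, K A Z → ∀ s₀ : ℂ, Z.denom.eval s₀ = 0 → ∃ t ∈ intC, FoL A (s₀ - t))
    (n d : ℕ) (hd : 0 < d) (w : Fin (n + 1) → ℕ) (hw : ∀ i, 0 < w i)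
    (f : MvPolynomial (Fin (n + 1)) ℂ) (hf : f.IsWeightedHomogeneous w d) (hF0 : f ≠ 0)
    (hroot : ∀ b : Polynomial ℂ, IsBFunction f b →
      ∃ l : ℤ, b.eval (-((∑ i, w i : ℕ) : ℂ) / d + (l : ℂ)) = 0)
    (m : ℕ) (κ : (Fin (n + 1) → ℂ) → Fin m) (Z : Fin m → RatFunc ℂ) (χ : Fin m → ℤ)
    (hκ : ∀ a (c : ℂ), c ≠ 0 → Adm w a → κ (fun i => c ^ w i * a i) = κ a)
    (hχ : ∀ q, χ q ≠ 0 → ∃ a, Adm w a ∧ κ a = q)
    (h : ∀ a, Adm w a → ∃ i, w i ≠ 0 ∧ a i ≠ 0 ∧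
      K ⟨Fin n, Fin 1, fun _ => slc i a f⟩ (Z (κ a)))
    (s : ℂ) (hs : ((∑ q, (χ q : RatFunc ℂ) * Z q) * fac d (∑ i, w i)).denom.eval s = 0) :
    ∃ t ∈ intC, FoL ⟨Fin (n + 1), Fin 1, fun _ => f⟩ (s - t) := by
  classical
  obtain ⟨l, hl⟩ := sf_root hw hf hF0 _ hroot
  by_cases hpole : s = -((∑ i, w i : ℕ) : ℂ) / d
  · refine ⟨(l : ℂ), ⟨l, rfl⟩, ?_⟩
    rw [hpole]
    exact hl
  obtain ⟨q, hq, hqs⟩ : ∃ q, χ q ≠ 0 ∧ (Z q).denom.eval s = 0 := by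
    by_contra hcon
    push Not at hcon
    refine Reg_denom s _ ((Pool.Agent.W574.SM.Reg s).mul_mem
      ((Pool.Agent.W574.SM.Reg s).sum_mem fun q _ => ?_) (fac_mem d _ s fun h0 => hpole ?_)) hs
    · by_cases h0 : χ q = 0
      · rw [h0, Int.cast_zero, zero_mul]
        exact (Pool.Agent.W574.SM.Reg s).zero_mem
      · exact (Pool.Agent.W574.SM.Reg s).mul_mem (intCast_mem _ _)
          (mem_Reg_of_denom _ _ (hcon q h0))
    · have hd0 : (d : ℂ) ≠ 0 := Nat.cast_ne_zero.2 hd.ne'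
      rw [eq_div_iff hd0]
      linear_combination h0
  obtain ⟨a, ha, haq⟩ := hχ q hq
  have horb : ∀ c : ℂ, c ≠ 0 → Adm w (fun i => c ^ w i * a i) := by
    intro c hc
    refine ⟨fun h0 => ha.1 ?_, fun i hi => by
      change c ^ w i * a i = 0
      rw [ha.2 i hi, mul_zero]⟩
    funext i
    have h1 := congrFun h0 i
    simp only [Pi.zero_apply] at h1
    exact (mul_eq_zero.1 h1).resolve_left (pow_ne_zero _ hc)
  have hex : ∀ c : ℂ, c ≠ 0 → ∃ t ∈ intC, ∃ i, w i ≠ 0 ∧ c ^ w i * a i ≠ 0 ∧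
      SF (fun _ : Fin 1 => slc i (fun i => c ^ w i * a i) f) 0 (s - t) := by
    intro c hc
    obtain ⟨i, hi, hai, hcl⟩ := h _ (horb c hc)
    rw [hκ a c hc ha, haq] at hcl
    obtain ⟨t, ht, h1⟩ := hK _ _ hcl s hqs
    exact ⟨t, ht, i, hi, hai, h1⟩
  obtain ⟨t, ht, hinf⟩ : ∃ t ∈ intC, {c : ℂ | c ≠ 0 ∧ ∃ i, w i ≠ 0 ∧ c ^ w i * a i ≠ 0 ∧
      SF (fun _ : Fin 1 => slc i (fun i => c ^ w i * a i) f) 0 (s - t)}.Infinite := by
    by_contra hcon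
    push Not at hcon
    have h1 : ({0}ᶜ : Set ℂ) ⊆ ⋃ t ∈ (intC : Set ℂ), {c : ℂ | c ≠ 0 ∧ ∃ i, w i ≠ 0 ∧
        c ^ w i * a i ≠ 0 ∧
        SF (fun _ : Fin 1 => slc i (fun i => c ^ w i * a i) f) 0 (s - t)} := by
      intro c hc
      obtain ⟨t, ht, h2⟩ := hex c hc
      exact Set.mem_biUnion ht ⟨hc, h2⟩
    have h2 : (⋃ t ∈ (intC : Set ℂ), {c : ℂ | c ≠ 0 ∧ ∃ i, w i ≠ 0 ∧
        c ^ w i * a i ≠ 0 ∧
        SF (fun _ : Fin 1 => slc i (fun i => c ^ w i * a i) f) 0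
          (s - t)}).Countable := by
      refine intC_countable.biUnion fun t ht => ?_
      exact (hcon t ht).countable
    have h3 : (Set.univ : Set ℂ).Countable := by
      have h4 : ({0} ∪ {0}ᶜ : Set ℂ).Countable := (Set.countable_singleton 0).union (h2.mono h1)
      rwa [Set.union_compl_self] at h4
    exact not_countable_complex h3
  refine ⟨t, ht, ?_⟩
  refine sf_orbit a (fun i hi => ha.2 i hi) _ hinf (fun _ : Fin 1 => f) (s - t)
    fun c hc B hB => ?_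
  obtain ⟨hc0, i, hi, hai, h1⟩ := hc
  exact sf_slice i hi (fun i => c ^ w i * a i) hai (fun _ : Fin 1 => f) d
    (fun _ => hf) (s - t) h1 B hB

/-- **Cones over real hypersurfaces with a chamber: poles and forced roots.** -/
theorem chcone_cl (K : Fam → RatFunc ℂ → Prop)
    (hK : ∀ A Z, K A Z → ∀ s₀ : ℂ, Z.denom.eval s₀ = 0 → ∃ t ∈ intC, FoL A (s₀ - t))
    (A : Fam) (Z : RatFunc ℂ) (h : ChCone K A Z) : Finite A.σ ∧ (∃ j, A.f j ≠ 0) ∧
      ∀ s₀ : ℂ, Z.denom.eval s₀ = 0 → ∃ t ∈ intC, FoL A (s₀ - t) := by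
  obtain ⟨n, d, hd, w, hw, f, hf, hc, m, κ, Z, χ, hκ, hχ, ht, h⟩ := h
  have hF0 := ne_zero_of_hasChamber hc
  exact ⟨inferInstanceAs (Finite (Fin (n + 1))), ⟨0, hF0⟩,
    cone_gen K hK n d hd w hw f hf hF0 (fun b hb => root_hasChamber hd hc hb) m κ Z χ hκ hχ h⟩

/-- **The induction.** -/
theorem tc_closure (hJ : StJ) (hU : StU) (hL : StL) (k : ℕ) :
    ∀ (c : Bool) (A : Fam) (Z : RatFunc ℂ), TC k c A Z → Pool.Agent.Y230.TL.Cl intC c A Z := by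
  induction k with
  | zero =>
    intro c A Z h
    refine Pool.Agent.R852.TL.tq_closure hJ hU hL intC int_div _ _ (fun A Z h => ?_)
      (fun A Z h => cl_mono natC_le (Pool.Agent.Y230.TL.weakHyp_cl hL A Z h)) c A Z h
    obtain ⟨h1, h2, h3⟩ := weakD_at A Z h
    refine ⟨h1, h2, fun s hs => ?_⟩
    obtain ⟨t, ht, h4⟩ := h3 s hs
    exact ⟨t, natC_le ht, h4⟩
  | succ k ih =>
    intro c A Z h
    refine Pool.Agent.R852.TL.tq_closure hJ hU hL intC int_div _ _ (fun A Z h => ?_)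
      (fun A Z h => ih true A Z h) c A Z h
    rcases h with h | h | h
    · have h1 := ih false A Z h
      exact ⟨h1.fin, h1.ne, h1.pole⟩
    · exact wcone_cl intC intC_countable _ (fun A Z h => ih false A Z h) A Z h
    · refine chcone_cl _ (fun A Z h => ?_) A Z h
      rcases h with h | h
      · exact (ih false A Z h).pole
      · exact (ih true A Z h).pole

/-- **The weak conjecture at the origin for the hypersurfaces in the class.** -/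
theorem tc_weak (hJ : StJ) (hU : StU) (hL : StL) (k : ℕ) (c : Bool) {σ : Type}
    (F : MvPolynomial σ ℂ) (Z : RatFunc ℂ)
    (h : TC k c ⟨σ, Fin 1, fun _ => F⟩ Z) (b : Polynomial ℂ)
    (hb : IsLocalBFunction F b) (s₀ : ℂ) (hs : Z.denom.eval s₀ = 0) :
    ∃ l : ℤ, b.eval (s₀ + (l : ℂ)) = 0 := by
  have hC := tc_closure hJ hU hL k c _ Z h
  obtain ⟨t, ht, h1⟩ := hC.pole s₀ hs
  obtain ⟨i, rfl⟩ := ht
  obtain ⟨j, hj⟩ := hC.ne
  refine ⟨-i, ?_⟩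
  have h2 := Pool.Agent.Y230.TL.root_of_sf hC.fin F hj _ h1 b hb
  rw [Int.cast_neg, ← sub_eq_add_neg]
  exact h2

/-- **The weak conjecture at the origin for the hypersurfaces in the class.** -/
theorem tc_main (k : ℕ) (c : Bool) (σ : Type) (F : MvPolynomial σ ℂ) (Z : RatFunc ℂ)
    (h : TC k c ⟨σ, Fin 1, fun _ => F⟩ Z) (b : Polynomial ℂ)
    (hb : IsLocalBFunction F b) (s₀ : ℂ) (hs : Z.denom.eval s₀ = 0) :
    ∃ l : ℤ, b.eval (s₀ + (l : ℂ)) = 0 := by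
  have hJ : StJ := Pool.Agent.Y448.TL.tJ Pool.Agent.Y230.TL.tA Pool.Agent.Y64.TL.tB
  have hU : StU := Pool.Agent.Y230.TL.tU Pool.Agent.Y64.TL.tB
  have hL : StL := Pool.Agent.Y475.TL.tL
  exact tc_weak hJ hU hL k c F Z h b hb s₀ hs

end Pool.Agent.KS6_80.CC
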