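import Pool.Agent.KS6_80.CC.Defs
import Pool.Agent.KS6_80.CC.Root
import Pool.Agent.KS6_80.RC.Mult

set_option autoImplicit false

/-! # Criteria for chambers with a mild boundary -/

namespace Pool.Agent.KS6_80.CC

open MvPolynomial MeasureTheory Set Filter Topology Metric
open Pool.Agent.T6.H16.RA (rv cx Reg rv_cont)
open Pool.Agent.KS6_80.RC (LocInt Dv iter_line int_near)
open scoped ENNReal

variable {n : ℕ}

/-- points of small multiplicity -/
theorem locInt_mult' {f : MvPolynomial (Fin n) ℝ} {U : Set (Fin n → ℝ)} (hR : Reg f U) {s0 : ℝ}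
    {x : Fin n → ℝ} {k : ℕ} (hne : homogeneousComponent k
      (aeval (fun i => X i + C (x i)) f : MvPolynomial (Fin n) ℝ) ≠ 0) (hk : -s0 * k ≤ 1) :
    LocInt f U s0 x := by
  intro s hs
  by_cases hs0 : 0 ≤ s
  · refine ⟨closedBall x 1, closedBall_mem_nhds x one_pos, ?_⟩
    refine IntegrableOn.mono_set (t := closedBall x 1) ?_ inter_subset_right
    refine ContinuousOn.integrableOn_compact (isCompact_closedBall x 1) ?_
    exact ((rv_cont f).rpow_const fun y => Or.inr hs0).continuousOn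
  push Not at hs0
  obtain ⟨v, hv⟩ : ∃ v : Fin n → ℝ, eval v (homogeneousComponent k
      (aeval (fun i => X i + C (x i)) f : MvPolynomial (Fin n) ℝ)) ≠ 0 := by
    by_contra h
    push Not at h
    apply hne
    refine MvPolynomial.funext fun v => ?_
    rw [h v, map_zero]
  have hv2 : eval x ((Dv v)^[k] f) ≠ 0 := by
    rw [iter_line]
    exact mul_ne_zero (by exact_mod_cast k.factorial_ne_zero) hv
  rcases k with _ | k
  · rw [Function.iterate_zero_apply] at hv2
    have h1 : ∀ᶠ y in 𝓝 x, rv f y ≠ 0 := (rv_cont f).continuousAt.eventually_ne hv2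
    obtain ⟨r, hr, hrb⟩ := nhds_basis_closedBall.mem_iff.1 h1
    refine ⟨closedBall x r, closedBall_mem_nhds x hr, ?_⟩
    refine IntegrableOn.mono_set (t := closedBall x r) ?_ inter_subset_right
    refine ContinuousOn.integrableOn_compact (isCompact_closedBall x r) fun y hy => ?_
    exact ((rv_cont f).continuousAt.rpow_const (Or.inl (hrb hy))).continuousWithinAt
  · have h1 : -s * ((k : ℝ) + 1) < 1 := by
      push_cast at hk
      have h3 : -s < -s0 := by linarith
      calc -s * ((k : ℝ) + 1) < -s0 * ((k : ℝ) + 1) := mul_lt_mul_of_pos_right h3 (by positivity)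
        _ ≤ 1 := hk
    obtain ⟨r, hr, hint⟩ := int_near f v x k hv2 (θ := -s) (by linarith) h1
    refine ⟨closedBall x r, closedBall_mem_nhds x hr, ?_⟩
    rw [Pool.Agent.KS6_80.RC.int_iff hR measurableSet_closedBall]
    refine lt_of_le_of_lt ?_ hint
    rw [Pool.Agent.KS6_80.RC.Lam]
    refine (le_of_eq ?_).trans (lintegral_mono_set (inter_subset_right (s := U)))
    refine setLIntegral_congr_fun (hR.op.measurableSet.inter measurableSet_closedBall) fun y hy => ?_
    show ENNReal.ofReal (rv f y ^ s) = ENNReal.ofReal (|eval y f| ^ (- -s))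
    rw [neg_neg, show eval y f = rv f y from rfl, abs_of_pos (hR.pos y hy.1)]

/-- **A chamber whose boundary points have small multiplicity.** -/
theorem chamber_of_mult {w : Fin n → ℕ} {d : ℕ} (hd : 0 < d) {g : MvPolynomial (Fin n) ℝ}
    {U : Set (Fin n → ℝ)} (op : IsOpen U)
    (cone : ∀ x ∈ U, ∀ c : ℝ, 0 < c → (fun i => c ^ w i * x i) ∈ U)
    (ne : ∃ x ∈ U, x ≠ 0) (pos : ∀ x ∈ U, 0 < eval x g)
    (bd : ∀ x ∈ closure U, x ∉ U → eval x g = 0)
    (mult : ∀ x ∈ closure U, x ∉ U → x ≠ 0 → ∃ k, (∑ i, w i) * k ≤ d ∧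
      homogeneousComponent k (aeval (fun i => X i + C (x i)) g : MvPolynomial (Fin n) ℝ) ≠ 0) :
    Chamber w d 0 g 1 U := by
  have hdR : (0 : ℝ) < d := by exact_mod_cast hd
  refine ⟨op, cone, pos, bd, fun x _ => ?_, ?_, fun x hx hxU hx0 s hs => ?_⟩
  · rw [map_one]
    exact zero_le_one
  · obtain ⟨x, hx, hx0⟩ := ne
    exact ⟨x, hx, hx0, by rw [map_one]; exact one_pos⟩
  · obtain ⟨k, hk, hne⟩ := mult x hx hxU hx0
    have h1 : - (-((∑ i, w i : ℕ) : ℝ) / d) * k ≤ 1 := by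
      rw [neg_div, neg_neg, div_mul_eq_mul_div, div_le_one hdR]
      exact_mod_cast hk
    obtain ⟨V, hV, hi⟩ := locInt_mult' (⟨op, pos, bd⟩ : Reg g U) hne h1 s (by
      rw [Nat.cast_zero, sub_zero] at hs
      exact hs)
    refine ⟨V, hV, ?_⟩
    simp only [map_one, mul_one]
    exact hi

/-- **A chamber of `q`, on the closure of which `p` is positive.** -/
theorem chamber_of_factor {w : Fin n → ℕ} {dq dp m : ℕ} (hdp : 0 < dp) (hm : 0 < m)
    {q p : MvPolynomial (Fin n) ℝ} (hq : q.IsWeightedHomogeneous w dq)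
    (hp : p.IsWeightedHomogeneous w dp) {U : Set (Fin n → ℝ)} (op : IsOpen U)
    (cone : ∀ x ∈ U, ∀ c : ℝ, 0 < c → (fun i => c ^ w i * x i) ∈ U)
    (ne : ∃ x ∈ U, x ≠ 0) (pos : ∀ x ∈ U, x ≠ 0 → 0 < eval x q) (h0 : 0 ∉ U)
    (bd : ∀ x ∈ closure U, x ∉ U → x ≠ 0 → eval x q = 0)
    (ppos : ∀ x ∈ closure U, x ≠ 0 → 0 < eval x p) :
    ∃ (k : ℕ) (h : MvPolynomial (Fin n) ℝ), h.IsWeightedHomogeneous w ((dq + m * dp) * k) ∧
      Chamber w (dq + m * dp) k (q * p ^ m) h U := by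
  set W := ∑ i, w i with hW
  set d := dq + m * dp with hd
  have hd0 : 0 < d := Nat.lt_of_lt_of_le (Nat.mul_pos hm hdp) (Nat.le_add_left _ _)
  set k := W * dq with hk
  set Kg := k + dp * W with hKg
  set ep := W * dq * (m - 1) with hep
  have hdk : dq * Kg + dp * ep = d * k := by
    obtain ⟨m', rfl⟩ : ∃ m', m = m' + 1 := ⟨m - 1, by omega⟩
    rw [hKg, hep, hd, hk, Nat.add_sub_cancel]
    ring
  have hne0 : ∀ x ∈ U, x ≠ 0 := fun x hx h => h0 (h ▸ hx)
  refine ⟨k, q ^ Kg * p ^ ep, ?_, op, cone, ?_, ?_, ?_, ?_, ?_⟩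
  · have h1 := (hq.pow Kg).mul (hp.pow ep)
    rw [smul_eq_mul, smul_eq_mul, mul_comm Kg, mul_comm ep, hdk] at h1
    exact h1
  · intro x hx
    rw [map_mul, map_pow]
    exact mul_pos (pos x hx (hne0 x hx)) (pow_pos (ppos x (subset_closure hx) (hne0 x hx)) _)
  · intro x hx hxU
    by_cases hx0 : x = 0
    · subst hx0
      rw [map_mul, map_pow]
      have h1 : eval (0 : Fin n → ℝ) (q * p ^ m) = 0 := by
        have hfd : (q * p ^ m).IsWeightedHomogeneous w d := by
          have := hq.mul (hp.pow m)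
          rwa [smul_eq_mul] at this
        have h2 := Pool.Agent.T6.H26.DC.rv_dl hfd 0 (0 : Fin n → ℝ)
        have h3 : Pool.Agent.T6.H26.DC.dl w 0 (0 : Fin n → ℝ) = 0 := by
          funext i
          unfold Pool.Agent.T6.H26.DC.dl
          rw [Pi.zero_apply, mul_zero]
        rw [h3, zero_pow hd0.ne', zero_mul] at h2
        exact h2
      rw [map_mul, map_pow] at h1
      exact h1
    · rw [map_mul, bd x hx hxU hx0, zero_mul]
  · intro x hx
    rw [map_mul, map_pow, map_pow]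
    exact mul_nonneg (pow_nonneg (pos x hx (hne0 x hx)).le _)
      (pow_nonneg (ppos x (subset_closure hx) (hne0 x hx)).le _)
  · obtain ⟨x, hx, hx0⟩ := ne
    refine ⟨x, hx, hx0, ?_⟩
    rw [map_mul, map_pow, map_pow]
    exact mul_pos (pow_pos (pos x hx hx0) _) (pow_pos (ppos x (subset_closure hx) hx0) _)
  · intro x hx hxU hx0 s hs
    have hpx := ppos x hx hx0
    have h1 : ∀ᶠ y in 𝓝 x, 0 < eval y p := (rv_cont p).continuousAt.eventually (lt_mem_nhds hpx)
    obtain ⟨r, hr, hrb⟩ := nhds_basis_closedBall.mem_iff.1 h1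
    refine ⟨closedBall x r, closedBall_mem_nhds x hr, ?_⟩
    have hdR : (0 : ℝ) < d := by exact_mod_cast hd0
    have hdR1 : (1 : ℝ) ≤ d := by exact_mod_cast hd0
    have hE0 : 0 ≤ s + Kg := by
      have h2 : ((W : ℕ) : ℝ) / d ≤ W := div_le_self (Nat.cast_nonneg _) hdR1
      have h3 : (Kg : ℝ) = k + dp * W := by
        rw [hKg]
        push_cast
        ring
      have hdp1 : (1 : ℝ) ≤ dp := by exact_mod_cast hdp
      have h4 : (W : ℝ) ≤ dp * W := le_mul_of_one_le_left (Nat.cast_nonneg _) hdp1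
      rw [neg_div] at hs
      rw [h3]
      linarith
    have hcont : IntegrableOn (fun y => |eval y q| ^ (s + Kg) * eval y p ^ (m * s + ep))
        (closedBall x r) := by
      refine ContinuousOn.integrableOn_compact (isCompact_closedBall x r) fun y hy => ?_
      refine ContinuousAt.continuousWithinAt ?_
      refine ContinuousAt.mul ?_ ?_
      · exact ((rv_cont q).abs.continuousAt).rpow_const (Or.inr hE0)
      · exact ((rv_cont p).continuousAt).rpow_const (Or.inl (hrb hy).ne')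
    refine (hcont.mono_set inter_subset_right).congr_fun ?_
      (op.measurableSet.inter measurableSet_closedBall)
    intro y hy
    have hqy := pos y hy.1 (hne0 y hy.1)
    have hpy : 0 < eval y p := hrb hy.2
    show |eval y q| ^ (s + Kg) * eval y p ^ (m * s + ep) =
      eval y (q * p ^ m) ^ s * eval y (q ^ Kg * p ^ ep)
    rw [abs_of_pos hqy, map_mul, map_mul, map_pow, map_pow, map_pow,
      Real.mul_rpow hqy.le (pow_nonneg hpy.le _), Real.rpow_add hqy,
      Real.rpow_add hpy, Real.rpow_mul hpy.le, Real.rpow_natCast,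
      Real.rpow_natCast, Real.rpow_natCast]
    ring

theorem hasChamber_of_mult (n : ℕ) (w : Fin n → ℕ) (d : ℕ) (g : MvPolynomial (Fin n) ℝ)
    (U : Set (Fin n → ℝ)) (hw : ∀ i, 0 < w i) (hd : 0 < d) (hg : g.IsWeightedHomogeneous w d)
    (op : IsOpen U) (cone : ∀ x ∈ U, ∀ c : ℝ, 0 < c → (fun i => c ^ w i * x i) ∈ U)
    (ne : ∃ x ∈ U, x ≠ 0) (pos : ∀ x ∈ U, 0 < eval x g)
    (bd : ∀ x ∈ closure U, x ∉ U → eval x g = 0)
    (mult : ∀ x ∈ closure U, x ∉ U → x ≠ 0 → ∃ j, (∑ i, w i) * j ≤ d ∧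
      homogeneousComponent j (aeval (fun i => X i + C (x i)) g : MvPolynomial (Fin n) ℝ) ≠ 0) :
    HasChamber w d (map (algebraMap ℝ ℂ) g) := by
  refine ⟨AlgEquiv.refl, 1, w, d, 0, g, 1, U, one_ne_zero, hw, hd, rfl, hg, ?_,
    chamber_of_mult hd op cone ne pos bd mult, ?_⟩
  · rw [mul_zero]
    exact isWeightedHomogeneous_one ℝ w
  · rw [C_1, one_mul]
    rfl

theorem hasChamber_of_factor (n : ℕ) (w : Fin n → ℕ) (dq dp m : ℕ) (q p : MvPolynomial (Fin n) ℝ)
    (U : Set (Fin n → ℝ)) (hw : ∀ i, 0 < w i) (hdp : 0 < dp) (hm : 0 < m)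
    (hq : q.IsWeightedHomogeneous w dq) (hp : p.IsWeightedHomogeneous w dp) (op : IsOpen U)
    (cone : ∀ x ∈ U, ∀ c : ℝ, 0 < c → (fun i => c ^ w i * x i) ∈ U) (ne : ∃ x ∈ U, x ≠ 0)
    (h0 : 0 ∉ U) (pos : ∀ x ∈ U, x ≠ 0 → 0 < eval x q)
    (bd : ∀ x ∈ closure U, x ∉ U → x ≠ 0 → eval x q = 0)
    (ppos : ∀ x ∈ closure U, x ≠ 0 → 0 < eval x p) :
    HasChamber w (dq + m * dp) (map (algebraMap ℝ ℂ) (q * p ^ m)) := by
  obtain ⟨k, h, hh, hC⟩ := chamber_of_factor hdp hm hq hp op cone ne pos h0 bd ppos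
  have hd0 : 0 < dq + m * dp := Nat.lt_of_lt_of_le (Nat.mul_pos hm hdp) (Nat.le_add_left _ _)
  have hfd : (q * p ^ m).IsWeightedHomogeneous w (dq + m * dp) := by
    have := hq.mul (hp.pow m)
    rwa [smul_eq_mul] at this
  refine ⟨AlgEquiv.refl, 1, w, dq + m * dp, k, q * p ^ m, h, U, one_ne_zero, hw, hd0, rfl, hfd,
    hh, hC, ?_⟩
  rw [C_1, one_mul]
  rfl

end Pool.Agent.KS6_80.CC
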