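import Pool.Graph.R_pool_sql_team_seeded_47a924f7.T6.H26.LCDefs
import Pool.Graph.R_seed8.Y230.TL.Defs

set_option autoImplicit false

/-! # Cones over real hypersurfaces with a chamber: definitions -/

namespace Pool.Agent.KS6_80.CC

open MvPolynomial MeasureTheory Set Filter Topology Metric
open Pool.Agent.W574.SM Pool.Agent.W574.RO Pool.Agent.Y229
open Pool.Agent.TH192.DT Pool.Agent.R852.TL Pool.Agent.T6.H26

/-- `U` is a chamber of the real polynomial `g`, which is weighted homogeneous of the degree `d` for the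
weights `w_i > 0`, with a boundary which is mild for the weight function `h`, of the degree `d k`:

* `U` is an open set in `ℝ ^ n`, stable under `x ↦ (c ^ w_i x_i)_i`, `c > 0`, `g > 0` on `U` and `g = 0`
  at the points of the boundary of `U` (so `U` is for instance a connected component of the set of the
  `x ≠ 0` with `g(x) > 0`);
* `h ≥ 0` on `U`, and `h > 0` at some point `x ≠ 0` of `U`;
* for every `s > -(∑ w_i)/d - k` the function `g ^ s h` is integrable on `U` near all the points `x ≠ 0`
  of the boundary of `U`. -/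
structure Chamber {n : ℕ} (w : Fin n → ℕ) (d k : ℕ) (g h : MvPolynomial (Fin n) ℝ)
    (U : Set (Fin n → ℝ)) : Prop where
  op : IsOpen U
  cone : ∀ x ∈ U, ∀ c : ℝ, 0 < c → (fun i => c ^ w i * x i) ∈ U
  pos : ∀ x ∈ U, 0 < eval x g
  bd : ∀ x ∈ closure U, x ∉ U → eval x g = 0
  hpos : ∀ x ∈ U, 0 ≤ eval x h
  hne : ∃ x ∈ U, x ≠ 0 ∧ 0 < eval x h
  mild : ∀ x ∈ closure U, x ∉ U → x ≠ 0 → ∀ s : ℝ, -((∑ i, w i : ℕ) : ℝ) / d - k < s →
    ∃ V ∈ 𝓝 x, IntegrableOn (fun y => eval y g ^ s * eval y h) (U ∩ V)

/-- The polynomial `f`, weighted homogeneous of the degree `d` for the weights `w_i > 0`, has a real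
chamber: some automorphism `φ` of the ring `ℂ[x_1, …, x_n]` (a change of the coordinates, for instance
a linear one) takes `f`, up to a constant factor, to a polynomial `g` with real coefficients, weighted
homogeneous of a degree `d' > 0` for weights `w'_i > 0` with `(∑ w'_i) / d' = (∑ w_i) / d` (for instance
`w' = w` and `d' = d`), which has a chamber, mild for some weight function `h` of the degree `d' k`. -/
def HasChamber {n : ℕ} (w : Fin n → ℕ) (d : ℕ) (f : MvPolynomial (Fin n) ℂ) : Prop :=
  ∃ (φ : MvPolynomial (Fin n) ℂ ≃ₐ[ℂ] MvPolynomial (Fin n) ℂ) (c : ℂ) (w' : Fin n → ℕ)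
    (d' k : ℕ) (g h : MvPolynomial (Fin n) ℝ) (U : Set (Fin n → ℝ)),
    c ≠ 0 ∧ (∀ i, 0 < w' i) ∧ 0 < d' ∧ (∑ i, w' i) * d = (∑ i, w i) * d' ∧
    g.IsWeightedHomogeneous w' d' ∧ h.IsWeightedHomogeneous w' (d' * k) ∧
    Chamber w' d' k g h U ∧ φ f = C c * map (algebraMap ℝ ℂ) g

/-- **Cones over real hypersurfaces with a chamber.** `ChCone Cl A Z`: the family `A` consists of one
polynomial `f` in `x_0, …, x_n`, weighted homogeneous of the degree `d > 0` for weights `w_i > 0`, which
has a real chamber (`HasChamber`). For every point `a ≠ 0` of `ℂ ^ (n + 1)` the germ of `f` at `a` on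
some hyperplane `x_i = a_i`, `a_i ≠ 0` (which is transversal to the orbit of `a` under the action
`c • a = (c ^ w_i a_i)_i` of the multiplicative group) is in the class `Cl`, with the local topological
zeta function `Z (κ a)`, where `κ` is constant on the orbits. All these germs are tame (which holds
automatically if all weights are `1`). Let `χ q` be the orbifold Euler characteristic of the set of the
orbits with `κ = q`: each orbit is counted with the order of its stabiliser. The weighted blow-up of
the origin gives `(d s + ∑ w_i) Z_f(s) = ∑_q χ q Z_q(s)` for the local topological zeta function `Z_f` of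
`f` at the origin. -/
inductive ChCone (Cl : Fam → RatFunc ℂ → Prop) : Fam → RatFunc ℂ → Prop
  | mk (n d : ℕ) (hd : 0 < d) (w : Fin (n + 1) → ℕ) (hw : ∀ i, 0 < w i)
      (f : MvPolynomial (Fin (n + 1)) ℂ) (hf : f.IsWeightedHomogeneous w d)
      (hc : HasChamber w d f)
      (m : ℕ) (κ : (Fin (n + 1) → ℂ) → Fin m) (Z : Fin m → RatFunc ℂ) (χ : Fin m → ℤ)
      (hκ : ∀ a (c : ℂ), c ≠ 0 → Adm w a → κ (fun i => c ^ w i * a i) = κ a)
      (hχ : ∀ q, χ q ≠ 0 → ∃ a, Adm w a ∧ κ a = q)
      (ht : ∀ a, Adm w a → Tame w (fun _ : Fin 1 => f) a)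
      (h : ∀ a, Adm w a → ∃ i, w i ≠ 0 ∧ a i ≠ 0 ∧
        Cl ⟨Fin n, Fin 1, fun _ => slc i a f⟩ (Z (κ a))) :
      ChCone Cl ⟨Fin (n + 1), Fin 1, fun _ => f⟩
        ((∑ q, (χ q : RatFunc ℂ) * Z q) * fac d (∑ i, w i))

/-- The germs which are obtained from the germs of ideals in the class `WeakD` and of hypersurfaces in
the class `WeakHyp` by the operations of `TQ` (sums and products in disjoint sets of variables,
`∑ y_j f_j(x)`, `∑ y_j f_j(x) + g(z)`, products of powers of forms, powers, dropping variables), by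
weighted cones over ideals (`WCone`), and by cones over real hypersurfaces with a chamber (`ChCone`),
nested at most `k` times: `TC k false A Z` for ideals and `TC k true A Z` for hypersurfaces, with their
local topological zeta functions `Z`. -/
def TC : ℕ → Bool → Fam → RatFunc ℂ → Prop
  | 0 => TQ WeakD Pool.Agent.Y230.TL.WeakHyp
  | k + 1 => TQ (fun A Z => TC k false A Z ∨ WCone (TC k false) A Z ∨
      ChCone (fun A Z => TC k false A Z ∨ TC k true A Z) A Z) (TC k true)

end Pool.Agent.KS6_80.CC
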