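import Pool.Graph.R_pool_sql_team_seeded_47a924f7.T6.H26.DC.B
import Pool.Agent.KS6_80.RC.Root

set_option autoImplicit false

/-! # Integrals of `f ^ s h` over cones for weighted homogeneous `f` and `h` -/

namespace Pool.Agent.KS6_80.CC

open MvPolynomial MeasureTheory Set Filter Topology Metric
open Pool.Agent.T6.H16.RA (rv cx Reg rv_cont)
open Pool.Agent.T6.H26.DC (dl rv_dl dl_dl NN NN_dl NN_cont NN_pos DD DD_pos kk kk_pos kk_even kk_mul)
open scoped ENNReal

variable {n : ℕ}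

/-- the diagonal map -/
noncomputable def dlL (w : Fin n → ℕ) (c : ℝ) : (Fin n → ℝ) →ₗ[ℝ] (Fin n → ℝ) :=
  Matrix.toLin' (Matrix.diagonal fun i => c ^ w i)

theorem dlL_eq (w : Fin n → ℕ) (c : ℝ) (x : Fin n → ℝ) : dlL w c x = dl w c x := by
  funext i
  rw [dlL, Matrix.toLin'_apply, Matrix.mulVec_diagonal]
  rfl

theorem dlL_det (w : Fin n → ℕ) (c : ℝ) : LinearMap.det (dlL w c) = c ^ ∑ i, w i := by
  rw [dlL, LinearMap.det_toLin', Matrix.det_diagonal, Finset.prod_pow_eq_pow_sum]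

theorem dl_inj (w : Fin n → ℕ) {c : ℝ} (hc : 0 < c) : Function.Injective (dl w c) := by
  intro x y h
  have h1 := congrArg (dl w c⁻¹) h
  rwa [dl_dl w (inv_mul_cancel₀ hc.ne'), dl_dl w (inv_mul_cancel₀ hc.ne')] at h1

theorem lint_dl (w : Fin n → ℕ) {c : ℝ} (hc : 0 < c) {B : Set (Fin n → ℝ)} (hB : MeasurableSet B)
    (g : (Fin n → ℝ) → ℝ≥0∞) :
    ∫⁻ x in dl w c '' B, g x = ENNReal.ofReal (c ^ ∑ i, w i) * ∫⁻ x in B, g (dl w c x) := by
  have hd : ∀ x, HasFDerivAt (dl w c) (LinearMap.toContinuousLinearMap (dlL w c)) x := by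
    intro x
    have h1 : dl w c = fun y => LinearMap.toContinuousLinearMap (dlL w c) y := by
      funext y
      rw [LinearMap.coe_toContinuousLinearMap', dlL_eq]
    rw [h1]
    exact (LinearMap.toContinuousLinearMap (dlL w c)).hasFDerivAt
  have h := lintegral_image_eq_lintegral_abs_det_fderiv_mul volume hB
    (f := dl w c) (f' := fun _ => LinearMap.toContinuousLinearMap (dlL w c))
    (fun x _ => (hd x).hasFDerivWithinAt) (dl_inj w hc).injOn g
  rw [h, ← lintegral_const_mul' _ _ ENNReal.ofReal_ne_top]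
  refine lintegral_congr fun x => ?_
  congr 2
  have h1 : (LinearMap.toContinuousLinearMap (dlL w c)).det = c ^ ∑ i, w i := by
    rw [ContinuousLinearMap.det, LinearMap.coe_toContinuousLinearMap]
    exact dlL_det w c
  rw [h1, abs_of_pos (pow_pos hc _)]

/-- the set of points of weighted norm at most `ρ` -/
def QB (w : Fin n → ℕ) (ρ : ℝ) : Set (Fin n → ℝ) := {x | NN w x ≤ ρ ^ DD w}

theorem QB_closed (w : Fin n → ℕ) (ρ : ℝ) : IsClosed (QB w ρ) :=
  isClosed_le (NN_cont w) continuous_const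

/-- the shell -/
def shell (w : Fin n → ℕ) : Set (Fin n → ℝ) := QB w 1 \ QB w (1 / 2)

theorem shell_meas (w : Fin n → ℕ) : MeasurableSet (shell w) :=
  (QB_closed w 1).measurableSet.diff (QB_closed w _).measurableSet

theorem dl_QB (w : Fin n → ℕ) {c : ℝ} (hc : 0 < c) (ρ : ℝ) : dl w c '' QB w ρ = QB w (c * ρ) := by
  ext x
  constructor
  · rintro ⟨y, hy, rfl⟩
    have hy' : NN w y ≤ ρ ^ DD w := hy
    show NN w (dl w c y) ≤ (c * ρ) ^ DD w
    rw [NN_dl, mul_pow]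
    exact mul_le_mul_of_nonneg_left hy' (pow_nonneg hc.le _)
  · intro hx
    have hx' : NN w x ≤ (c * ρ) ^ DD w := hx
    refine ⟨dl w c⁻¹ x, ?_, dl_dl w (mul_inv_cancel₀ hc.ne') x⟩
    show NN w (dl w c⁻¹ x) ≤ ρ ^ DD w
    rw [NN_dl, inv_pow, inv_mul_le_iff₀ (pow_pos hc _), ← mul_pow]
    exact hx'

theorem dl_shell (w : Fin n → ℕ) {c : ℝ} (hc : 0 < c) : dl w c '' shell w = QB w c \ QB w (c / 2) := by
  rw [shell, image_sdiff (dl_inj w hc), dl_QB w hc, dl_QB w hc, mul_one]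
  congr 2
  ring

/-- the integral of `f ^ s h` over `U ∩ A` -/
noncomputable def Lam (f h : MvPolynomial (Fin n) ℝ) (U : Set (Fin n → ℝ)) (s : ℝ)
    (A : Set (Fin n → ℝ)) : ℝ≥0∞ := ∫⁻ x in U ∩ A, ENNReal.ofReal (rv f x ^ s * rv h x)

/-- a weighted cone -/
def WC (w : Fin n → ℕ) (U : Set (Fin n → ℝ)) : Prop := ∀ x ∈ U, ∀ c : ℝ, 0 < c → dl w c x ∈ U

variable {f h : MvPolynomial (Fin n) ℝ} {U : Set (Fin n → ℝ)} {d e : ℕ} {w : Fin n → ℕ}

theorem Lam_scale (hR : Reg f U) (hU : WC w U) (hf : f.IsWeightedHomogeneous w d)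
    (hh : h.IsWeightedHomogeneous w e) (s : ℝ) {c : ℝ} (hc : 0 < c)
    {A : Set (Fin n → ℝ)} (hA : MeasurableSet A) :
    Lam f h U s (dl w c '' A) =
      ENNReal.ofReal (c ^ (((∑ i, w i : ℕ) : ℝ) + e + d * s)) * Lam f h U s A := by
  have h1 : U ∩ dl w c '' A = dl w c '' (U ∩ A) := by
    ext x
    constructor
    · rintro ⟨hx, y, hy, rfl⟩
      refine ⟨y, ⟨?_, hy⟩, rfl⟩
      have := hU _ hx c⁻¹ (inv_pos.2 hc)
      rwa [dl_dl w (inv_mul_cancel₀ hc.ne')] at this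
    · rintro ⟨y, ⟨hy, hyA⟩, rfl⟩
      exact ⟨hU y hy c hc, y, hyA, rfl⟩
  rw [Lam, h1, lint_dl w hc (hR.op.measurableSet.inter hA), Lam]
  have h2 : ∫⁻ x in U ∩ A, ENNReal.ofReal (rv f (dl w c x) ^ s * rv h (dl w c x)) =
      ∫⁻ x in U ∩ A, ENNReal.ofReal (c ^ ((e : ℝ) + d * s)) *
        ENNReal.ofReal (rv f x ^ s * rv h x) := by
    refine setLIntegral_congr_fun (hR.op.measurableSet.inter hA) fun x hx => ?_
    show ENNReal.ofReal (rv f (dl w c x) ^ s * rv h (dl w c x)) =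
      ENNReal.ofReal (c ^ ((e : ℝ) + d * s)) * ENNReal.ofReal (rv f x ^ s * rv h x)
    rw [rv_dl hf, rv_dl hh, Real.mul_rpow (by positivity) (hR.pos x hx.1).le,
      ← ENNReal.ofReal_mul (by positivity), ← Real.rpow_natCast_mul hc.le, Real.rpow_add hc,
      Real.rpow_natCast]
    congr 1
    ring
  rw [h2, lintegral_const_mul' _ _ ENNReal.ofReal_ne_top, ← mul_assoc,
    ← ENNReal.ofReal_mul (by positivity), add_assoc, Real.rpow_add hc (((∑ i, w i : ℕ) : ℝ)),
    Real.rpow_natCast]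

theorem NN_zero (hw : ∀ i, 0 < w i) : NN w (0 : Fin n → ℝ) = 0 := by
  unfold NN
  exact Finset.sum_eq_zero fun i _ => by
    rw [Pi.zero_apply, zero_pow (kk_pos hw i).ne']

theorem NN_nonneg (x : Fin n → ℝ) : 0 ≤ NN w x :=
  Finset.sum_nonneg fun j _ => (kk_even w j).pow_nonneg _

theorem QB_sub (hw : ∀ i, 0 < w i) {ρ : ℝ} (hρ : 0 < ρ) :
    QB w ρ ⊆ {0} ∪ ⋃ k : ℕ, dl w ((1 / 2 : ℝ) ^ k * ρ) '' shell w := by
  intro x hx
  by_cases h0 : x = 0
  · left
    exact h0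
  · right
    have hx' : NN w x ≤ ρ ^ DD w := hx
    have hN := NN_pos (w := w) h0
    have hD := DD_pos hw
    set r := NN w x ^ ((DD w : ℝ)⁻¹) with hr
    have hr0 : 0 < r := Real.rpow_pos_of_pos hN _
    have hrD : r ^ DD w = NN w x := Real.rpow_inv_natCast_pow hN.le hD.ne'
    have hrρ : r ≤ ρ := by
      rw [← hrD] at hx'
      exact (pow_le_pow_iff_left₀ hr0.le hρ.le hD.ne').1 hx'
    obtain ⟨k, hk1, hk2⟩ := exists_nat_pow_near_of_lt_one (x := r / ρ) (y := (1 / 2 : ℝ))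
      (by positivity) ((div_le_one hρ).2 hrρ) (by norm_num) (by norm_num)
    refine mem_iUnion.2 ⟨k, ?_⟩
    rw [dl_shell w (by positivity)]
    constructor
    · show NN w x ≤ _
      rw [← hrD]
      refine pow_le_pow_left₀ hr0.le ?_ _
      rwa [div_le_iff₀ hρ] at hk2
    · show ¬ NN w x ≤ _
      rw [← hrD, not_le]
      refine pow_lt_pow_left₀ ?_ (by positivity) hD.ne'
      rw [lt_div_iff₀ hρ, pow_succ] at hk1
      linarith

theorem Lam_QB (hn : 0 < n) (hw : ∀ i, 0 < w i) (hR : Reg f U) (hU : WC w U)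
    (hf : f.IsWeightedHomogeneous w d) (hh : h.IsWeightedHomogeneous w e) {s : ℝ}
    (hs : 0 < ((∑ i, w i : ℕ) : ℝ) + e + d * s) {ρ : ℝ} (hρ : 0 < ρ)
    (hA : Lam f h U s (shell w) < ∞) : Lam f h U s (QB w ρ) < ∞ := by
  set W := ((∑ i, w i : ℕ) : ℝ) + e + d * s with hW
  have h1 : Lam f h U s (QB w ρ) ≤
      Lam f h U s {0} + ∑' k : ℕ, Lam f h U s (dl w ((1 / 2 : ℝ) ^ k * ρ) '' shell w) := by
    refine (lintegral_mono_set (inter_subset_inter_right U (QB_sub hw hρ))).trans ?_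
    rw [inter_union_distrib_left, inter_iUnion]
    refine (lintegral_union_le _ _ _).trans (add_le_add le_rfl ?_)
    exact lintegral_iUnion_le _ _
  have : Nonempty (Fin n) := ⟨⟨0, hn⟩⟩
  have h2 : Lam f h U s {0} = 0 := by
    refine setLIntegral_measure_zero _ _ (measure_mono_null inter_subset_right ?_)
    exact measure_singleton _
  have h3 : ∀ k : ℕ, Lam f h U s (dl w ((1 / 2 : ℝ) ^ k * ρ) '' shell w) =
      (ENNReal.ofReal (ρ ^ W) * Lam f h U s (shell w)) *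
        ENNReal.ofReal ((1 / 2 : ℝ) ^ W) ^ k := by
    intro k
    rw [Lam_scale hR hU hf hh s (by positivity) (shell_meas w), Real.mul_rpow (by positivity) hρ.le,
      ENNReal.ofReal_mul (by positivity), ← ENNReal.ofReal_pow (by positivity),
      ← Real.rpow_natCast_mul (by norm_num), ← Real.rpow_mul_natCast (by norm_num), mul_comm (k : ℝ)]
    ring
  refine h1.trans_lt ?_
  rw [h2, zero_add]
  simp only [h3]
  rw [ENNReal.tsum_mul_left]
  refine ENNReal.mul_lt_top (ENNReal.mul_lt_top ENNReal.ofReal_lt_top hA) ?_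
  rw [ENNReal.tsum_geometric]
  refine ENNReal.inv_lt_top.2 (tsub_pos_of_lt ?_)
  rw [ENNReal.ofReal_lt_one]
  exact Real.rpow_lt_one (by norm_num) (by norm_num) hs

theorem int_iff (hR : Reg f U) (hpos : ∀ x ∈ U, 0 ≤ rv h x) {A : Set (Fin n → ℝ)}
    (hA : MeasurableSet A) (s : ℝ) :
    IntegrableOn (fun x => rv f x ^ s * rv h x) (U ∩ A) ↔ Lam f h U s A < ∞ := by
  have hm : Measurable fun x => rv f x ^ s * rv h x :=
    ((rv_cont f).measurable.pow_const s).mul (rv_cont h).measurable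
  rw [IntegrableOn, Integrable, and_iff_right hm.aestronglyMeasurable, hasFiniteIntegral_iff_ofReal]
  · rfl
  · filter_upwards [ae_restrict_mem (hR.op.measurableSet.inter hA)] with x hx
    exact mul_nonneg (Real.rpow_nonneg (hR.pos x hx.1).le _) (hpos x hx.1)

theorem norm_le_of_QB (hw : ∀ i, 0 < w i) {ρ : ℝ} (hρ : 0 < ρ) (hρ1 : ρ ≤ 1) {x : Fin n → ℝ}
    (hx : x ∈ QB w ρ) : ‖x‖ ≤ ρ := by
  refine (pi_norm_le_iff_of_nonneg hρ.le).2 fun i => ?_
  have hx' : NN w x ≤ ρ ^ DD w := hx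
  have h1 : x i ^ kk w i ≤ NN w x := Finset.single_le_sum (f := fun i => x i ^ kk w i)
    (fun j _ => (kk_even w j).pow_nonneg _) (Finset.mem_univ i)
  rw [← (kk_even w i).pow_abs] at h1
  rw [Real.norm_eq_abs]
  have h2 : |x i| ^ kk w i ≤ (ρ ^ w i) ^ kk w i := by
    rw [← pow_mul, kk_mul]
    exact h1.trans hx'
  have h3 : |x i| ≤ ρ ^ w i :=
    (pow_le_pow_iff_left₀ (abs_nonneg _) (by positivity) (kk_pos hw i).ne').1 h2
  exact h3.trans (pow_le_of_le_one hρ.le hρ1 (hw i).ne')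

theorem ball_sub_QB (hn : 0 < n) (hw : ∀ i, 0 < w i) :
    closedBall (0 : Fin n → ℝ) 1 ⊆ QB w n := by
  intro x hx
  rw [mem_closedBall_zero_iff] at hx
  show NN w x ≤ (n : ℝ) ^ DD w
  have h1 : NN w x ≤ ∑ i : Fin n, (1 : ℝ) := by
    refine Finset.sum_le_sum fun i _ => ?_
    rw [← (kk_even w i).pow_abs]
    exact pow_le_one₀ (abs_nonneg _) ((norm_le_pi_norm x i).trans hx)
  have h2 : (1 : ℝ) ≤ n := by exact_mod_cast hn
  refine h1.trans ?_
  rw [Finset.sum_const, Finset.card_univ, Fintype.card_fin, nsmul_eq_mul, mul_one]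
  exact le_self_pow₀ h2 (DD_pos hw).ne'

/-- the divergence at `-(W + e)/d` -/
theorem Lam_div (hw : ∀ i, 0 < w i) (hR : Reg f U) (hU : WC w U)
    (hf : f.IsWeightedHomogeneous w d) (hh : h.IsWeightedHomogeneous w e) (hd : 0 < d)
    (hpos : ∀ x ∈ U, 0 ≤ rv h x)
    (hne : ∃ x ∈ U, x ≠ 0 ∧ 0 < rv h x) {ρ : ℝ} (hρ : 0 < ρ) (R : ℝ) :
    ∀ᶠ t in 𝓝[>] (-(((∑ i, w i : ℕ) : ℝ) + e) / d), ENNReal.ofReal R < Lam f h U t (QB w ρ) := by
  obtain ⟨x, hx, hx0, hxh⟩ := hne
  have hn : 0 < n := by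
    rcases Nat.eq_zero_or_pos n with h | h
    · subst h
      exact absurd (Subsingleton.elim x 0) hx0
    · exact h
  set W : ℝ := ((∑ i, w i : ℕ) : ℝ) + e with hW
  have hdR : (0 : ℝ) < d := by exact_mod_cast hd
  have hWR : 0 < W := by
    have h1 : 0 < ∑ i, w i := Finset.sum_pos (fun i _ => hw i) ⟨⟨0, hn⟩, Finset.mem_univ _⟩
    have h2 : (0 : ℝ) < ((∑ i, w i : ℕ) : ℝ) := by exact_mod_cast h1
    have h3 : (0 : ℝ) ≤ e := Nat.cast_nonneg _
    rw [hW]
    linarith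
  have hD := DD_pos hw
  -- a bound for `f`
  obtain ⟨M, hM⟩ := ((isCompact_closedBall (0 : Fin n → ℝ) 1).image (rv_cont f)).bddAbove
  set M' := max M 1 with hM'
  have hM1 : 1 ≤ M' := le_max_right _ _
  -- a point in the shell
  obtain ⟨y0, hy0U, hy0h, hy01, hy02⟩ : ∃ y0 ∈ U, 0 < rv h y0 ∧ NN w y0 < 1 ∧
      (1 / 2 : ℝ) ^ DD w < NN w y0 := by
    have hN := NN_pos (w := w) hx0
    set r := NN w x ^ ((DD w : ℝ)⁻¹) with hr
    have hr0 : 0 < r := Real.rpow_pos_of_pos hN _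
    have hrD : r ^ DD w = NN w x := Real.rpow_inv_natCast_pow hN.le hD.ne'
    have hc : 0 < 3 / 4 * r⁻¹ := by positivity
    have hNy : NN w (dl w (3 / 4 * r⁻¹) x) = (3 / 4 : ℝ) ^ DD w := by
      rw [NN_dl, ← hrD, ← mul_pow, mul_assoc, inv_mul_cancel₀ hr0.ne', mul_one]
    refine ⟨dl w (3 / 4 * r⁻¹) x, hU x hx _ hc, ?_, ?_, ?_⟩
    · rw [rv_dl hh]
      exact mul_pos (pow_pos hc _) hxh
    · rw [hNy]
      exact pow_lt_one₀ (by norm_num) (by norm_num) hD.ne'
    · rw [hNy]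
      exact pow_lt_pow_left₀ (by norm_num) (by norm_num) hD.ne'
  set η := rv h y0 / 2 with hη
  have hη0 : 0 < η := by positivity
  -- the volume
  set V : Set (Fin n → ℝ) := U ∩ ({y | NN w y < 1} ∩ ({y | (1 / 2 : ℝ) ^ DD w < NN w y} ∩
    {y | η < rv h y})) with hV
  have hVo : IsOpen V := hR.op.inter ((isOpen_lt (NN_cont w) continuous_const).inter
    ((isOpen_lt continuous_const (NN_cont w)).inter (isOpen_lt continuous_const (rv_cont h))))
  have hVne : V.Nonempty := by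
    refine ⟨y0, hy0U, hy01, hy02, ?_⟩
    show η < rv h y0
    rw [hη]
    linarith
  have hVpos : 0 < volume V := hVo.measure_pos volume hVne
  have hVsub : V ⊆ U ∩ shell w := by
    rintro y ⟨hy, hy1, hy2, -⟩
    refine ⟨hy, ?_, ?_⟩
    · show NN w y ≤ 1 ^ DD w
      rw [one_pow]
      exact (hy1 : NN w y < 1).le
    · show ¬ NN w y ≤ (1 / 2 : ℝ) ^ DD w
      rw [not_le]
      exact hy2
  set c : ℝ≥0∞ := ENNReal.ofReal (M' ^ (-W / d) * η) * volume V with hc
  have hcpos : 0 < c := ENNReal.mul_pos (by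
    rw [Ne, ENNReal.ofReal_eq_zero, not_le]
    positivity) hVpos.ne'
  have hlow : ∀ t : ℝ, -W / d < t → t < 0 → c ≤ Lam f h U t (shell w) := by
    intro t ht ht0
    refine le_trans ?_ (lintegral_mono_set hVsub)
    rw [hc, ← setLIntegral_const]
    refine setLIntegral_mono' hVo.measurableSet fun y hy => ENNReal.ofReal_le_ofReal ?_
    have hyQ : y ∈ QB w 1 := (hVsub hy).2.1
    have hfy : rv f y ≤ M' := (hM ⟨y, mem_closedBall_zero_iff.2
      (norm_le_of_QB hw one_pos le_rfl hyQ), rfl⟩).trans (le_max_left _ _)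
    have h1 : M' ^ (-W / d) ≤ rv f y ^ t := by
      calc M' ^ (-W / d) ≤ M' ^ t := Real.rpow_le_rpow_of_exponent_le hM1 ht.le
        _ ≤ rv f y ^ t := Real.rpow_le_rpow_of_nonpos (hR.pos y hy.1) hfy ht0.le
    exact mul_le_mul h1 (hy.2.2.2 : η < rv h y).le hη0.le (Real.rpow_nonneg (hR.pos y hy.1).le _)
  -- the number of pieces
  obtain ⟨m, hm⟩ : ∃ m : ℕ, ENNReal.ofReal R < m * (ENNReal.ofReal (1 / 2) * c) := by
    have hc2 : ENNReal.ofReal (1 / 2) * c ≠ 0 := (ENNReal.mul_pos (by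
      rw [Ne, ENNReal.ofReal_eq_zero, not_le]
      norm_num) hcpos.ne').ne'
    obtain ⟨m, hm⟩ := ENNReal.exists_nat_mul_gt hc2 (ENNReal.ofReal_ne_top (r := R))
    exact ⟨m, hm⟩
  have hpow : ∀ k : ℕ, ∀ᶠ t in 𝓝[>] (-W / d),
      1 / 2 ≤ ((1 / 2 : ℝ) ^ k * ρ) ^ (W + d * t) := by
    intro k
    have h0 : 0 < (1 / 2 : ℝ) ^ k * ρ := by positivity
    have h1 : ContinuousAt (fun t : ℝ => ((1 / 2 : ℝ) ^ k * ρ) ^ (W + d * t)) (-W / d) :=
      (continuous_const.rpow (by fun_prop) fun _ => Or.inl h0.ne').continuousAt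
    have h2 : ((1 / 2 : ℝ) ^ k * ρ) ^ (W + d * (-W / d)) = 1 := by
      have : W + d * (-W / d) = 0 := by field_simp; ring
      rw [this, Real.rpow_zero]
    have h3 := h1.tendsto
    rw [h2] at h3
    have h4 := h3.eventually (lt_mem_nhds (show (1 / 2 : ℝ) < 1 by norm_num))
    exact (h4.filter_mono nhdsWithin_le_nhds).mono fun t ht => ht.le
  have hneg : ∀ᶠ t in 𝓝[>] (-W / d), t < 0 := by
    refine Filter.Eventually.filter_mono nhdsWithin_le_nhds (gt_mem_nhds ?_)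
    rw [neg_div, neg_lt_zero]
    positivity
  filter_upwards [(Finset.range m).eventually_all.2 fun k _ => hpow k, hneg, self_mem_nhdsWithin]
    with t ht ht0 hts
  refine hm.trans_le ?_
  have h1 : ∀ k ∈ Finset.range m, ENNReal.ofReal (1 / 2) * c ≤
      ∫⁻ x in U ∩ dl w ((1 / 2 : ℝ) ^ k * ρ) '' shell w, ENNReal.ofReal (rv f x ^ t * rv h x) := by
    intro k hk
    have h2 := Lam_scale hR hU hf hh t (c := (1 / 2 : ℝ) ^ k * ρ) (by positivity) (shell_meas w)
    rw [Lam] at h2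
    rw [h2]
    exact mul_le_mul' (ENNReal.ofReal_le_ofReal (ht k hk)) (hlow t hts ht0)
  calc (m : ℝ≥0∞) * (ENNReal.ofReal (1 / 2) * c)
      = ∑ k ∈ Finset.range m, ENNReal.ofReal (1 / 2) * c := by simp
    _ ≤ ∑ k ∈ Finset.range m, ∫⁻ x in U ∩ dl w ((1 / 2 : ℝ) ^ k * ρ) '' shell w,
          ENNReal.ofReal (rv f x ^ t * rv h x) := Finset.sum_le_sum h1
    _ = ∫⁻ x in ⋃ k ∈ Finset.range m, U ∩ dl w ((1 / 2 : ℝ) ^ k * ρ) '' shell w,
          ENNReal.ofReal (rv f x ^ t * rv h x) := by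
        refine (lintegral_biUnion_finset ?_ ?_ _).symm
        · have key : ∀ k l : ℕ, k < l → Disjoint
              (U ∩ dl w ((1 / 2 : ℝ) ^ k * ρ) '' shell w)
              (U ∩ dl w ((1 / 2 : ℝ) ^ l * ρ) '' shell w) := by
            intro k l hkl
            rw [dl_shell w (by positivity), dl_shell w (by positivity), Set.disjoint_left]
            rintro y ⟨-, -, hy⟩ ⟨-, hy2, -⟩
            apply hy
            have hy2' : NN w y ≤ ((1 / 2 : ℝ) ^ l * ρ) ^ DD w := hy2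
            show NN w y ≤ ((1 / 2 : ℝ) ^ k * ρ / 2) ^ DD w
            refine hy2'.trans (pow_le_pow_left₀ (by positivity) ?_ _)
            have h5 : (1 / 2 : ℝ) ^ l ≤ (1 / 2) ^ (k + 1) :=
              pow_le_pow_of_le_one (by norm_num) (by norm_num) hkl
            rw [pow_succ] at h5
            nlinarith
          intro k _ l _ hkl
          rcases lt_or_gt_of_ne hkl with h | h
          · exact key k l h
          · exact (key l k h).symm
        · intro k _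
          rw [dl_shell w (by positivity)]
          exact hR.op.measurableSet.inter ((QB_closed w _).measurableSet.diff
            (QB_closed w _).measurableSet)
    _ ≤ Lam f h U t (QB w ρ) := by
        refine lintegral_mono_set (iUnion₂_subset fun k _ => inter_subset_inter_right U ?_)
        rw [dl_shell w (by positivity)]
        refine sdiff_subset.trans fun y hy => ?_
        have hy' : NN w y ≤ ((1 / 2 : ℝ) ^ k * ρ) ^ DD w := hy
        show NN w y ≤ ρ ^ DD w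
        refine hy'.trans (pow_le_pow_left₀ (by positivity) ?_ _)
        have : (1 / 2 : ℝ) ^ k ≤ 1 := pow_le_one₀ (by norm_num) (by norm_num)
        nlinarith

end Pool.Agent.KS6_80.CC
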